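import Mathlib
import Pool.Agent.Lib_helper30.SylGrp

/-!
# MP_655244_al: relations with a bounded number of syllables

Let `R L` be the set of real `q` such that some nontrivial element of the free group on two
letters which is a product of at most `L` powers of the letters is killed by `x ↦ A`, `y ↦ B_q`.
The closure of `R L` consists of non-free algebraic numbers of degree at most `(L + 1) / 2`;
it is countable, nowhere dense and Lebesgue null.
-/

set_option autoImplicit false

namespace Pool.Agent.Results.MP_655244_al.BoundedSyllables

/-- the matrix `A` of the problem -/
def A : Matrix.SpecialLinearGroup (Fin 2) ℝ := ⟨!![1, 1; 0, 1], by simp⟩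

/-- the matrix `B_q` of the problem -/
def B (q : ℝ) : Matrix.SpecialLinearGroup (Fin 2) ℝ := ⟨!![1, 0; q, 1], by simp⟩

/-- `q` is non-free -/
def NonFree (q : ℝ) : Prop := ¬ Function.Injective (FreeGroup.lift ![A, B q])

/-- the set `𝓡^(d)` of the problem: real algebraic non-free numbers of degree at most `d` -/
def Rdeg (d : ℕ) : Set ℝ := {q | IsAlgebraic ℚ q ∧ (minpoly ℚ q).natDegree ≤ d ∧ NonFree q}

/-- real parameters with a nontrivial relation that is a product of at most `L` powers of the
two letters -/
def R (L : ℕ) : Set ℝ :=
  {q | ∃ l : List (Fin 2 × ℤ), l.length ≤ L ∧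
    (l.map fun p => FreeGroup.of p.1 ^ p.2).prod ≠ 1 ∧
    FreeGroup.lift ![A, B q] (l.map fun p => FreeGroup.of p.1 ^ p.2).prod = 1}

open Pool.Agent.Lib_helper30.Syl in
lemma R_eq (L : ℕ) : R L = Pool.Agent.Lib_helper30.Syl.R L := by
  ext q
  constructor
  · rintro ⟨l, hL, h1, h2⟩
    -- alternating form, with control of the length
    have key : ∀ l : List (Fin 2 × ℤ), (l.map fun p => FreeGroup.of p.1 ^ p.2).prod = 1 ∨
        ∃ (t : Bool) (k : List ℤ), k ≠ [] ∧ k.length ≤ l.length ∧ (∀ m ∈ k, m ≠ 0) ∧
          (l.map fun p => FreeGroup.of p.1 ^ p.2).prod = alt (fgen t) (fgen (!t)) k := by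
      intro l
      induction l with
      | nil => left; rfl
      | cons p l ih =>
        obtain ⟨i, m⟩ := p
        have h3 : ∃ s, FreeGroup.of i = fgen s := by
          fin_cases i
          · exact ⟨true, rfl⟩
          · exact ⟨false, rfl⟩
        obtain ⟨s, hs⟩ := h3
        simp only [List.map_cons, List.prod_cons, hs, List.length_cons]
        by_cases hm : m = 0
        · rw [hm, zpow_zero, one_mul]
          rcases ih with h | ⟨t, k, a, b, c, d⟩
          · exact Or.inl h
          · exact Or.inr ⟨t, k, a, by omega, c, d⟩
        rcases ih with h | ⟨t, k, a, b, c, d⟩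
        · right
          rw [h]
          exact ⟨s, [m], by simp, by simp, by simpa using hm, by simp [alt]⟩
        · rw [d]
          cases k with
          | nil => exact absurd rfl a
          | cons m' k =>
            simp only [List.length_cons] at b
            by_cases hst : s = t
            · subst hst
              simp only [alt]
              rw [← mul_assoc, ← zpow_add]
              by_cases h0 : m + m' = 0
              · rw [h0, zpow_zero, one_mul]
                cases k with
                | nil => left; simp [alt]
                | cons m'' k =>
                  right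
                  refine ⟨!s, m'' :: k, by simp, ?_,
                    fun x hx => c x (List.mem_cons_of_mem _ hx), ?_⟩
                  · simp only [List.length_cons] at b ⊢
                    omega
                  · rw [Bool.not_not]
              · right
                refine ⟨s, (m + m') :: k, by simp, ?_, ?_, by simp [alt]⟩
                · simp only [List.length_cons]
                  omega
                · intro x hx
                  rcases List.mem_cons.1 hx with rfl | hx
                  · exact h0
                  · exact c x (List.mem_cons_of_mem _ hx)
            · have hst' : t = !s := by cases s <;> cases t <;> simp_all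
              subst hst'
              right
              refine ⟨s, m :: m' :: k, by simp, ?_, ?_, ?_⟩
              · simp only [List.length_cons]
                omega
              · intro x hx
                rcases List.mem_cons.1 hx with rfl | hx
                · exact hm
                · exact c x hx
              · rw [Bool.not_not]
                simp [alt]
    rcases key l with h | ⟨t, k, a, b, c, d⟩
    · exact absurd h h1
    · rw [d, alt_map] at h2
      exact (mem_R_iff q L).2 ⟨t, k, a, by omega, c, by
        rw [← lift_fgen, ← lift_fgen]; exact h2⟩
  · intro hq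
    obtain ⟨t, k, a, b, c, d⟩ := (mem_R_iff q L).1 hq
    have key : ∀ (k : List ℤ) (t : Bool), ∃ l : List (Fin 2 × ℤ), l.length = k.length ∧
        (l.map fun p => FreeGroup.of p.1 ^ p.2).prod = alt (fgen t) (fgen (!t)) k := by
      intro k
      induction k with
      | nil => intro t; exact ⟨[], rfl, rfl⟩
      | cons m k ih =>
        intro t
        obtain ⟨l, h1, h2⟩ := ih (!t)
        rw [Bool.not_not] at h2
        refine ⟨((if t then 0 else 1), m) :: l, by simp [h1], ?_⟩
        simp only [List.map_cons, List.prod_cons, h2, alt]
        cases t <;> rfl
    obtain ⟨l, h1, h2⟩ := key k t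
    refine ⟨l, by omega, ?_, ?_⟩
    · rw [h2]
      exact alt_ne_one t k a c
    · rw [h2]
      change FreeGroup.lift ![Pool.Agent.Lib_helper30.Syl.A, Pool.Agent.Lib_helper30.Syl.B q] _ = 1
      rw [alt_map, lift_fgen, lift_fgen, d]

theorem result (L : ℕ) :
    closure (R L) ⊆ R (4 * L + 4) ∩ Rdeg ((L + 1) / 2) ∧ (closure (R L)).Countable ∧
      interior (closure (R L)) = ∅ ∧ MeasureTheory.volume (closure (R L)) = 0 := by
  have hc : (closure (R L)).Countable := by
    rw [R_eq]
    exact Pool.Agent.Lib_helper30.Syl.countable_closure L
  refine ⟨?_, hc, ?_, hc.measure_zero _⟩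
  · rw [R_eq, R_eq]
    exact Pool.Agent.Lib_helper30.Syl.closure_subset L
  · rw [interior_eq_empty_iff_dense_compl]
    exact hc.dense_compl ℝ

end Pool.Agent.Results.MP_655244_al.BoundedSyllables
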