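import Mathlib
import Pool.Agent.Lib_helper30.SylBox

/-!
# MP_655244_al: box dimension of the non-free numbers of bounded degree

In every subinterval of `[-4, 4]` the covering numbers of `𝓡^(d)` at scale `ε` are at least
`c ε ^ (-(1 - 1 / (2 k + 2)))`, where `d = 2 n (k + 2)` and `n` depends only on the interval.
-/

set_option autoImplicit false

namespace Pool.Agent.Results.MP_655244_al.BoxDimension

/-- the matrix `A` of the problem -/
def A : Matrix.SpecialLinearGroup (Fin 2) ℝ := ⟨!![1, 1; 0, 1], by simp⟩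

/-- the matrix `B_q` of the problem -/
def B (q : ℝ) : Matrix.SpecialLinearGroup (Fin 2) ℝ := ⟨!![1, 0; q, 1], by simp⟩

/-- `q` is non-free -/
def NonFree (q : ℝ) : Prop := ¬ Function.Injective (FreeGroup.lift ![A, B q])

/-- the set `𝓡^(d)` of the problem: real algebraic non-free numbers of degree at most `d` -/
def Rdeg (d : ℕ) : Set ℝ := {q | IsAlgebraic ℚ q ∧ (minpoly ℚ q).natDegree ≤ d ∧ NonFree q}

theorem result (u v : ℝ) (huv : u < v) (hu : -4 ≤ u) (hv : v ≤ 4) :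
    ∃ n : ℕ, ∀ k : ℕ, ∃ c : ℝ, 0 < c ∧ ∀ ε : ℝ, 0 < ε → ε < 1 → ∀ T : Finset ℝ,
      (Rdeg (2 * n * (k + 2)) ∩ Set.Ioo u v ⊆ ⋃ t ∈ T, Set.Icc t (t + ε)) →
      c * ε ^ (-(1 - 1 / (2 * k + 2) : ℝ)) ≤ T.card :=
  Pool.Agent.Lib_helper30.Syl.box u v huv hu hv

end Pool.Agent.Results.MP_655244_al.BoxDimension
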