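import Mathlib
import Pool.Agent.Lib_helper30.NFLog

/-!
# MP_655244_al: rational parameters with small numerator are non-free

For every integer `a ≠ 0` and every `b ≥ 4 exp (|a| / 8)` the rational number `a / b` is
non-free.  In particular, for each numerator all but finitely many denominators are non-free.
-/

set_option autoImplicit false

namespace Pool.Agent.Results.MP_655244_al.SmallNumerators

/-- the matrix `A` of the problem -/
def A : Matrix.SpecialLinearGroup (Fin 2) ℝ := ⟨!![1, 1; 0, 1], by simp⟩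

/-- the matrix `B_q` of the problem -/
def B (q : ℝ) : Matrix.SpecialLinearGroup (Fin 2) ℝ := ⟨!![1, 0; q, 1], by simp⟩

/-- `q` is non-free: some nontrivial element of the free group on two letters dies under
`x ↦ A`, `y ↦ B_q` -/
def NonFree (q : ℝ) : Prop := ¬ Function.Injective (FreeGroup.lift ![A, B q])

theorem result (a : ℤ) (ha : a ≠ 0) (b : ℕ) (hb : 4 * Real.exp (|(a : ℝ)| / 8) ≤ b) :
    NonFree ((a : ℝ) / b) := by
  intro hinj
  have hb' : 4 * Real.exp ((a.natAbs : ℝ) / 8) ≤ b := by
    have : (a.natAbs : ℝ) = |(a : ℝ)| := by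
      rw [← Int.cast_natCast, Int.natCast_natAbs, Int.cast_abs]
    rw [this]
    exact hb
  have hbpos : (0 : ℝ) < b := by
    have : (0 : ℝ) < 4 * Real.exp (|(a : ℝ)| / 8) := by positivity
    linarith
  have hq : (a : ℝ) / b ≠ 0 := div_ne_zero (by exact_mod_cast ha) hbpos.ne'
  set q : ℝ := (a : ℝ) / b with hqdef
  have hcast : (((a : ℚ) / b : ℚ) : ℝ) = q := by
    push_cast
    rfl
  let g : Matrix.GeneralLinearGroup (Fin 2) ℝ :=
    Matrix.GeneralLinearGroup.mkOfDetNeZero !![1, q; 0, 1] (by simp)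
  let h : Matrix.GeneralLinearGroup (Fin 2) ℝ :=
    Matrix.GeneralLinearGroup.mkOfDetNeZero !![1, 0; 1, 1] (by simp)
  let D : Matrix.GeneralLinearGroup (Fin 2) ℝ :=
    Matrix.GeneralLinearGroup.mkOfDetNeZero !![q, 0; 0, 1] (by simpa using hq)
  have key := Pool.Agent.Lib_helper30.NF.nonfree_of_exp (F := ℝ) ha hb' g h
    (by rw [hcast]; rfl) rfl
  apply key
  let ψ : Matrix.SpecialLinearGroup (Fin 2) ℝ →* Matrix.GeneralLinearGroup (Fin 2) ℝ :=
    (MulAut.conj D).toMonoidHom.comp Matrix.SpecialLinearGroup.toGL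
  have hψ : Function.Injective ψ := by
    intro x y hxy
    have h1 : Matrix.SpecialLinearGroup.toGL x = Matrix.SpecialLinearGroup.toGL y :=
      (MulAut.conj D).injective hxy
    exact Matrix.SpecialLinearGroup.toGL_injective h1
  have hD : (D : Matrix (Fin 2) (Fin 2) ℝ) = !![q, 0; 0, 1] := rfl
  have hgA : ψ A = g := by
    have hA : ((Matrix.SpecialLinearGroup.toGL A : Matrix.GeneralLinearGroup (Fin 2) ℝ) :
        Matrix (Fin 2) (Fin 2) ℝ) = !![1, 1; 0, 1] := rfl
    have hg : (g : Matrix (Fin 2) (Fin 2) ℝ) = !![1, q; 0, 1] := rfl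
    have : D * Matrix.SpecialLinearGroup.toGL A = g * D := by
      apply Units.ext
      rw [Units.val_mul, Units.val_mul, hA, hD, hg, Matrix.mul_fin_two, Matrix.mul_fin_two]
      simp
    change D * Matrix.SpecialLinearGroup.toGL A * D⁻¹ = g
    rw [this, mul_inv_cancel_right]
  have hhB : ψ (B q) = h := by
    have hB : ((Matrix.SpecialLinearGroup.toGL (B q) : Matrix.GeneralLinearGroup (Fin 2) ℝ) :
        Matrix (Fin 2) (Fin 2) ℝ) = !![1, 0; q, 1] := rfl
    have hh : (h : Matrix (Fin 2) (Fin 2) ℝ) = !![1, 0; 1, 1] := rfl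
    have : D * Matrix.SpecialLinearGroup.toGL (B q) = h * D := by
      apply Units.ext
      rw [Units.val_mul, Units.val_mul, hB, hD, hh, Matrix.mul_fin_two, Matrix.mul_fin_two]
      simp
    change D * Matrix.SpecialLinearGroup.toGL (B q) * D⁻¹ = h
    rw [this, mul_inv_cancel_right]
  have hcomp : FreeGroup.lift ![g, h] = ψ.comp (FreeGroup.lift ![A, B q]) := by
    ext i
    fin_cases i
    · simp [hgA]
    · simp [hhB]
  rw [hcomp]
  exact hψ.comp hinj

end Pool.Agent.Results.MP_655244_al.SmallNumerators
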