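import Mathlib
import Pool.Agent.Lib_helper33.Zo.Main

/-!
# MP_655244_al: a quantitative zero-one law for the closures of `𝓡^(d)`

Write `C_d` for the closure of the set `𝓡^(d)` of non-free real algebraic numbers of degree at
most `d`. For all `0 < a < b` and `δ > 0` there is a `K` such that for every `d` the measure of
the part of `[-4 + δ, 4 - δ]` missed by `C_{K d}` is at most `10000 (b / a)` times the proportion
of `(a, b)` missed by `C_d` (`proportion`). Two consequences, which with it form the theorem `result`: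
if some `C_d` contains an interval then every `[-4 + δ, 4 - δ]` is contained in some `C_D`, and
if some `C_d` has positive measure then some `C_D` fills `[-4, 4]` up to measure `δ`.
-/

set_option autoImplicit false

namespace Pool.Agent.Results.MP_655244_al.ZeroOneLaw

open MeasureTheory Set
open scoped ENNReal

/-- the matrix `A` of the problem -/
def A : Matrix.SpecialLinearGroup (Fin 2) ℝ := ⟨!![1, 1; 0, 1], by simp⟩

/-- the matrix `B_q` of the problem -/
def B (q : ℝ) : Matrix.SpecialLinearGroup (Fin 2) ℝ := ⟨!![1, 0; q, 1], by simp⟩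

/-- `q` is non-free -/
def NonFree (q : ℝ) : Prop := ¬ Function.Injective (FreeGroup.lift ![A, B q])

/-- the set `𝓡^(d)` of the problem: real algebraic non-free numbers of degree at most `d` -/
def Rdeg (d : ℕ) : Set ℝ := {q | IsAlgebraic ℚ q ∧ (minpoly ℚ q).natDegree ≤ d ∧ NonFree q}

/-- the quantitative form: proportions missed by the closures -/
theorem proportion (a b δ : ℝ) (ha : 0 < a) (hab : a < b) (hδ : 0 < δ) :
    ∃ K : ℕ, ∀ d : ℕ, volume (Icc (-4 + δ) (4 - δ) \ closure (Rdeg (K * d))) ≤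
      ENNReal.ofReal (10000 * (b / a) / (b - a)) * volume (Ioo a b \ closure (Rdeg d)) :=
  Pool.Agent.Lib_helper33.Zo.main a b δ ha hab hδ

lemma neg_mem_closure {d : ℕ} {x : ℝ} (hx : x ∈ closure (Rdeg d)) : -x ∈ closure (Rdeg d) := by
  have h : x ∈ closure (Pool.Agent.Lib_helper30.Syl.Rdeg d) := hx
  have := Pool.Agent.Lib_helper33.Zo.closure_div (n := -1) (by norm_num) h
  have e : x / ((-1 : ℤ) : ℝ) = -x := by
    push_cast
    ring
  rw [e] at this
  exact this

/-- first consequence: if some closure contains an interval, then every compact subinterval of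
`(-4, 4)` is contained in some closure -/
theorem interval_law (d : ℕ) (h : (interior (closure (Rdeg d))).Nonempty) (δ : ℝ) (hδ : 0 < δ) :
    ∃ D : ℕ, Icc (-4 + δ) (4 - δ) ⊆ closure (Rdeg D) := by
  -- an interval of positive numbers
  obtain ⟨a, b, ha, hab, hsub⟩ : ∃ a b : ℝ, 0 < a ∧ a < b ∧ Ioo a b ⊆ closure (Rdeg d) := by
    obtain ⟨x, hx⟩ := h
    obtain ⟨ε, hε, hball⟩ := Metric.isOpen_iff.1 isOpen_interior x hx
    have hb : ∀ y, |y - x| < ε → y ∈ closure (Rdeg d) := by
      intro y hy
      exact interior_subset (hball (by rwa [Metric.mem_ball, Real.dist_eq]))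
    rcases le_or_gt 0 x with h0 | h0
    · refine ⟨x + ε / 4, x + ε / 2, by linarith, by linarith, ?_⟩
      rintro y ⟨h1, h2⟩
      apply hb
      rw [abs_lt]
      constructor <;> linarith
    · refine ⟨-x + ε / 4, -x + ε / 2, by linarith, by linarith, ?_⟩
      rintro y ⟨h1, h2⟩
      have h3 : -y ∈ closure (Rdeg d) := by
        apply hb
        rw [abs_lt]
        constructor <;> linarith
      have := neg_mem_closure h3
      rwa [neg_neg] at this
  obtain ⟨K, hK⟩ := proportion a b (δ / 2) ha hab (by linarith)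
  refine ⟨K * d, ?_⟩
  have h1 := hK d
  rw [sdiff_eq_empty.2 hsub, measure_empty, mul_zero] at h1
  have h2 : volume (Ioo (-4 + δ / 2) (4 - δ / 2) ∩ (closure (Rdeg (K * d)))ᶜ) = 0 := by
    apply measure_mono_null _ (le_antisymm h1 zero_le)
    rintro y ⟨hy, hy2⟩
    exact ⟨Ioo_subset_Icc_self hy, hy2⟩
  have h3 : IsOpen (Ioo (-4 + δ / 2) (4 - δ / 2) ∩ (closure (Rdeg (K * d)))ᶜ) :=
    isOpen_Ioo.inter isClosed_closure.isOpen_compl
  have h4 := (h3.measure_eq_zero_iff volume).1 h2
  intro y hy
  by_contra hne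
  have : y ∈ Ioo (-4 + δ / 2) (4 - δ / 2) ∩ (closure (Rdeg (K * d)))ᶜ :=
    ⟨⟨by linarith [hy.1], by linarith [hy.2]⟩, hne⟩
  rw [h4] at this
  exact this

/-- second consequence: if some closure has positive measure, then the closures fill `[-4, 4]` up
to arbitrarily small measure -/
theorem measure_law (d : ℕ) (h : 0 < volume (closure (Rdeg d))) (δ : ℝ) (hδ : 0 < δ) :
    ∃ D : ℕ, volume (Icc (-4) 4 \ closure (Rdeg D)) ≤ ENNReal.ofReal δ := by
  set C : Set ℝ := closure (Rdeg d) with hC
  have hCm : MeasurableSet C := isClosed_closure.measurableSet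
  -- the positive half has positive measure
  have hpos : volume (C ∩ Ioi 0) ≠ 0 := by
    intro h0
    have h1 : volume (C ∩ Iio 0) = 0 := by
      have h2 := Pool.Agent.Lib_helper33.Zo.vol_image_le' (f := fun u : ℝ => -u) (s := C ∩ Ioi 0)
        (K := 1) zero_le_one (by
          intro x _ y _
          rw [one_mul, ← abs_neg]
          apply le_of_eq
          congr 1
          ring)
      rw [h0, mul_zero] at h2
      apply measure_mono_null _ (le_antisymm h2 zero_le)
      rintro u ⟨hu1, hu2⟩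
      exact ⟨-u, ⟨neg_mem_closure hu1, by simpa using hu2⟩, by simp⟩
    have h2 : C ⊆ ((C ∩ Ioi 0) ∪ (C ∩ Iio 0)) ∪ {0} := by
      intro u hu
      rcases lt_trichotomy u 0 with h3 | h3 | h3
      · exact Or.inl (Or.inr ⟨hu, h3⟩)
      · exact Or.inr h3
      · exact Or.inl (Or.inl ⟨hu, h3⟩)
    have h3 : volume C ≤ 0 := by
      refine (measure_mono h2).trans ((measure_union_le _ _).trans ?_)
      refine (add_le_add (measure_union_le _ _) le_rfl).trans ?_
      rw [h0, h1, Real.volume_singleton]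
      simp
    exact absurd h (not_lt.2 h3)
  -- a density point
  have hdens := IsUnifLocDoublingMeasure.ae_tendsto_measure_inter_div (volume : Measure ℝ)
    (C ∩ Ioi 0) 1
  obtain ⟨x, hx, hxd⟩ : ∃ x ∈ C ∩ Ioi 0, Filter.Tendsto
      (fun n : ℕ => volume ((C ∩ Ioi 0) ∩ Metric.closedBall x (1 / ((n : ℝ) + 1))) /
        volume (Metric.closedBall x (1 / ((n : ℝ) + 1)))) Filter.atTop (nhds 1) := by
    rw [ae_restrict_iff' (hCm.inter measurableSet_Ioi)] at hdens
    by_contra hne
    push Not at hne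
    apply hpos
    apply measure_mono_null _ hdens
    intro x hx hx2
    apply hne x hx
    apply hx2 hx (fun _ => x)
    · apply tendsto_nhdsWithin_of_tendsto_nhds_of_eventually_within
      · exact tendsto_one_div_add_atTop_nhds_zero_nat
      · filter_upwards with n
        have h9 : (0 : ℝ) < 1 / ((n : ℝ) + 1) := Nat.one_div_pos_of_nat
        exact h9
    · filter_upwards with n
      rw [one_mul]
      exact Metric.mem_closedBall_self (Nat.one_div_pos_of_nat (α := ℝ) (n := n)).le
  have hx0 : 0 < x := hx.2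
  set η : ℝ := min (δ / 80000) (1 / 2) with hη
  have hη0 : 0 < η := lt_min (by positivity) (by norm_num)
  have hη1 : η ≤ 1 / 2 := min_le_right _ _
  have hη2 : η ≤ δ / 80000 := min_le_left _ _
  have h1 : ∀ᶠ n : ℕ in Filter.atTop, ENNReal.ofReal (1 - η) <
      volume ((C ∩ Ioi 0) ∩ Metric.closedBall x (1 / ((n : ℝ) + 1))) /
        volume (Metric.closedBall x (1 / ((n : ℝ) + 1))) := by
    apply hxd.eventually_const_lt
    rw [← ENNReal.ofReal_one]
    exact (ENNReal.ofReal_lt_ofReal_iff one_pos).2 (by linarith)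
  have h2 : ∀ᶠ n : ℕ in Filter.atTop, 1 / ((n : ℝ) + 1) < x / 3 :=
    (tendsto_one_div_add_atTop_nhds_zero_nat).eventually_lt_const (by linarith)
  obtain ⟨n, hn1, hn2⟩ := (h1.and h2).exists
  set ρ : ℝ := 1 / ((n : ℝ) + 1) with hρ
  have hρ0 : 0 < ρ := Nat.one_div_pos_of_nat
  have hvol : volume (Metric.closedBall x ρ) = ENNReal.ofReal (2 * ρ) := Real.volume_closedBall x ρ
  rw [hvol] at hn1
  have h3 : ENNReal.ofReal (1 - η) * ENNReal.ofReal (2 * ρ) ≤
      volume (C ∩ Metric.closedBall x ρ) := by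
    have h4 := (ENNReal.lt_div_iff_mul_lt (Or.inl (by simpa using hρ0))
      (Or.inl ENNReal.ofReal_ne_top)).1 hn1
    refine h4.le.trans (measure_mono ?_)
    rintro y ⟨⟨hy1, -⟩, hy2⟩
    exact ⟨hy1, hy2⟩
  have h4 : volume (Ioo (x - ρ) (x + ρ) \ C) ≤ ENNReal.ofReal (2 * ρ * η) := by
    have h5 : volume (Metric.closedBall x ρ \ C) + volume (C ∩ Metric.closedBall x ρ) =
        ENNReal.ofReal (2 * ρ) := by
      rw [← hvol, inter_comm, add_comm]
      exact measure_inter_add_sdiff _ hCm
    have h6 : volume (Metric.closedBall x ρ \ C) + ENNReal.ofReal (2 * ρ * (1 - η)) ≤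
        ENNReal.ofReal (2 * ρ * η) + ENNReal.ofReal (2 * ρ * (1 - η)) := by
      rw [← ENNReal.ofReal_add (by positivity) (by
        apply mul_nonneg (by positivity)
        linarith)]
      rw [show 2 * ρ * η + 2 * ρ * (1 - η) = 2 * ρ by ring, ← h5]
      apply add_le_add le_rfl
      refine le_trans (le_of_eq ?_) h3
      rw [← ENNReal.ofReal_mul (by linarith)]
      congr 1
      ring
    have h7 := (ENNReal.add_le_add_iff_right ENNReal.ofReal_ne_top).1 h6
    refine le_trans (measure_mono ?_) h7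
    apply sdiff_subset_sdiff_left
    intro y hy
    rw [Metric.mem_closedBall, Real.dist_eq, abs_le]
    constructor <;> linarith [hy.1, hy.2]
  obtain ⟨K, hK⟩ := proportion (x - ρ) (x + ρ) (δ / 4) (by linarith) (by linarith) (by linarith)
  refine ⟨K * d, ?_⟩
  have h5 := hK d
  have h6 : volume (Icc (-4 + δ / 4) (4 - δ / 4) \ closure (Rdeg (K * d))) ≤
      ENNReal.ofReal (δ / 2) := by
    refine h5.trans ((mul_le_mul_right h4 _).trans ?_)
    rw [← ENNReal.ofReal_mul (by
      apply div_nonneg _ (by linarith)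
      have : 0 ≤ (x + ρ) / (x - ρ) := div_nonneg (by linarith) (by linarith)
      linarith)]
    apply ENNReal.ofReal_le_ofReal
    have h7 : (x + ρ) / (x - ρ) ≤ 2 := by
      rw [div_le_iff₀ (by linarith)]
      linarith
    have e1 : 10000 * ((x + ρ) / (x - ρ)) / (x + ρ - (x - ρ)) * (2 * ρ * η) =
        10000 * ((x + ρ) / (x - ρ)) * η := by
      have : x + ρ - (x - ρ) = 2 * ρ := by ring
      rw [this]
      field_simp
    rw [e1]
    calc 10000 * ((x + ρ) / (x - ρ)) * η ≤ 10000 * 2 * (δ / 80000) := by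
          apply mul_le_mul _ hη2 hη0.le (by norm_num)
          linarith
      _ ≤ δ / 2 := by linarith
  have hsub : Icc (-4) 4 \ closure (Rdeg (K * d)) ⊆
      ((Icc (-4 + δ / 4) (4 - δ / 4) \ closure (Rdeg (K * d))) ∪ Icc (-4) (-4 + δ / 4)) ∪
        Icc (4 - δ / 4) 4 := by
    rintro y ⟨⟨hy1, hy2⟩, hy3⟩
    by_cases h7 : y ≤ -4 + δ / 4
    · exact Or.inl (Or.inr ⟨hy1, h7⟩)
    · by_cases h8 : 4 - δ / 4 ≤ y
      · exact Or.inr ⟨h8, hy2⟩
      · push Not at h7 h8
        exact Or.inl (Or.inl ⟨⟨h7.le, h8.le⟩, hy3⟩)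
  refine (measure_mono hsub).trans ((measure_union_le _ _).trans ?_)
  refine (add_le_add (measure_union_le _ _) le_rfl).trans ?_
  rw [Real.volume_Icc, Real.volume_Icc]
  have e2 : ENNReal.ofReal δ = ENNReal.ofReal (δ / 2) + ENNReal.ofReal (-4 + δ / 4 - -4) +
      ENNReal.ofReal (4 - (4 - δ / 4)) := by
    rw [← ENNReal.ofReal_add (by linarith) (by linarith), ← ENNReal.ofReal_add (by linarith)
      (by linarith)]
    congr 1
    ring
  rw [e2]
  exact add_le_add (add_le_add h6 le_rfl) le_rfl

/-- **The zero-one laws.** (1) If the closure of some `𝓡^(d)` contains an interval, then every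
`[-4 + δ, 4 - δ]` is contained in the closure of some `𝓡^(D)`. (2) If the closure of some `𝓡^(d)`
has positive measure, then for every `δ > 0` the closure of some `𝓡^(D)` fills `[-4, 4]` up to
measure `δ`. (3) The quantitative form. -/
theorem result :
    (∀ d : ℕ, (interior (closure (Rdeg d))).Nonempty → ∀ δ : ℝ, 0 < δ →
      ∃ D : ℕ, Icc (-4 + δ) (4 - δ) ⊆ closure (Rdeg D)) ∧
    (∀ d : ℕ, 0 < volume (closure (Rdeg d)) → ∀ δ : ℝ, 0 < δ →
      ∃ D : ℕ, volume (Icc (-4) 4 \ closure (Rdeg D)) ≤ ENNReal.ofReal δ) ∧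
    (∀ a b δ : ℝ, 0 < a → a < b → 0 < δ → ∃ K : ℕ, ∀ d : ℕ,
      volume (Icc (-4 + δ) (4 - δ) \ closure (Rdeg (K * d))) ≤
        ENNReal.ofReal (10000 * (b / a) / (b - a)) * volume (Ioo a b \ closure (Rdeg d))) :=
  ⟨interval_law, measure_law, proportion⟩

end Pool.Agent.Results.MP_655244_al.ZeroOneLaw
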